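import Pool.Agent.N483.KM.StmV

/-!
# Project KM (helper483), leaf VER (helper247): functions with values in `(-∞, ∞]`, blocks
(adapted from the leaf PER by helper756)
-/

set_option autoImplicit false
set_option linter.all false

namespace Pool.Agent.N247.KM

open MeasureTheory Set Filter Topology
open scoped ENNReal InnerProductSpace

namespace Ver

theorem sum_ne_bot {N : ℕ} (a : Fin N → EReal) (hb : ∀ i, a i ≠ ⊥) (s : Finset (Fin N)) :
    ∑ i ∈ s, a i ≠ ⊥ := by
  classical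
  induction s using Finset.induction_on with
  | empty => simp
  | insert i s hi ih =>
    rw [Finset.sum_insert hi]
    exact EReal.add_ne_bot_iff.2 ⟨hb i, ih⟩

theorem coe_fsum {ι : Type} (s : Finset ι) (α : ι → ℝ) :
    ((∑ i ∈ s, α i : ℝ) : EReal) = ∑ i ∈ s, (α i : EReal) := by
  classical
  induction s using Finset.induction_on with
  | empty => simp
  | insert i s hi ih => rw [Finset.sum_insert hi, Finset.sum_insert hi, EReal.coe_add, ih]

theorem real_of_sum {N : ℕ} (a : Fin N → EReal) (hb : ∀ i, a i ≠ ⊥) {e : ℝ}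
    (h : ∑ i, a i ≤ (e : EReal)) : ∃ α : Fin N → ℝ, (∀ i, a i = (α i : EReal)) ∧ ∑ i, α i ≤ e := by
  classical
  have ht : ∀ i, a i ≠ ⊤ := by
    intro i hi
    rw [← Finset.add_sum_erase Finset.univ a (Finset.mem_univ i), hi,
      EReal.top_add_of_ne_bot (sum_ne_bot a hb _)] at h
    exact absurd h (not_le.2 (EReal.coe_lt_top e))
  refine ⟨fun i => (a i).toReal, fun i => (EReal.coe_toReal (ht i) (hb i)).symm, ?_⟩
  have e1 : ∑ i, a i = ((∑ i, (a i).toReal : ℝ) : EReal) := by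
    rw [coe_fsum]
    exact Finset.sum_congr rfl fun i _ => (EReal.coe_toReal (ht i) (hb i)).symm
  rw [e1] at h
  exact_mod_cast h

theorem ten_real (c M : ℝ) : ((c : EReal) + (M : EReal)).toENNReal = ENNReal.ofReal (c + M) := by
  rw [← EReal.coe_add, EReal.toENNReal_of_ne_top (EReal.coe_ne_top _), EReal.toReal_coe]

theorem sum_le_of {N : ℕ} (a : Fin N → EReal) (hb : ∀ i, a i ≠ ⊥) {M e : ℝ}
    (h0 : 0 ≤ e + N * M)
    (h : ∑ i, (a i + (M : EReal)).toENNReal ≤ ENNReal.ofReal (e + N * M)) :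
    ∑ i, a i ≤ (e : EReal) := by
  have ht : ∀ i, a i ≠ ⊤ := by
    intro i hi
    have h1 : (a i + (M : EReal)).toENNReal ≤ ENNReal.ofReal (e + N * M) :=
      (Finset.single_le_sum (f := fun i => (a i + (M : EReal)).toENNReal)
        (fun _ _ => zero_le) (Finset.mem_univ i)).trans h
    rw [hi, EReal.top_add_coe, EReal.toENNReal_top] at h1
    exact absurd h1 (not_le.2 ENNReal.ofReal_lt_top)
  have e1 : ∀ i, a i = ((a i).toReal : EReal) := fun i => (EReal.coe_toReal (ht i) (hb i)).symm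
  have e2 : ∑ i, a i = ((∑ i, (a i).toReal : ℝ) : EReal) := by
    rw [coe_fsum]
    exact Finset.sum_congr rfl fun i _ => e1 i
  have e3 : ∑ i, (a i + (M : EReal)).toENNReal = ∑ i, ENNReal.ofReal ((a i).toReal + M) := by
    refine Finset.sum_congr rfl fun i _ => ?_
    conv_lhs => rw [e1 i]
    exact ten_real _ _
  rw [e3] at h
  have h2 : ENNReal.ofReal (∑ i, ((a i).toReal + M)) ≤ ∑ i, ENNReal.ofReal ((a i).toReal + M) := by
    classical
    have : ∀ s : Finset (Fin N), ENNReal.ofReal (∑ i ∈ s, ((a i).toReal + M)) ≤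
        ∑ i ∈ s, ENNReal.ofReal ((a i).toReal + M) := by
      intro s
      induction s using Finset.induction_on with
      | empty => simp
      | insert i s hi ih =>
        rw [Finset.sum_insert hi, Finset.sum_insert hi]
        exact ENNReal.ofReal_add_le.trans (by gcongr)
    exact this _
  have h3 := (ENNReal.ofReal_le_ofReal_iff h0).1 (h2.trans h)
  rw [Finset.sum_add_distrib, Finset.sum_const, Finset.card_univ, Fintype.card_fin,
    nsmul_eq_mul] at h3
  rw [e2, EReal.coe_le_coe_iff]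
  linarith

theorem le_of_sum {N : ℕ} (a : Fin N → EReal) {M e : ℝ}
    (hM : ∀ i, ((-M : ℝ) : EReal) ≤ a i) (h : ∑ i, a i ≤ (e : EReal)) :
    0 ≤ e + N * M ∧ ∑ i, (a i + (M : EReal)).toENNReal ≤ ENNReal.ofReal (e + N * M) := by
  have hb : ∀ i, a i ≠ ⊥ := fun i hi => by
    have := hM i
    rw [hi] at this
    exact absurd this (not_le.2 (EReal.bot_lt_coe _))
  obtain ⟨α, hα, hs⟩ := real_of_sum a hb h
  have hα0 : ∀ i, 0 ≤ α i + M := by
    intro i
    have := hM i
    rw [hα i, EReal.coe_le_coe_iff] at this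
    linarith
  have e3 : ∑ i, (a i + (M : EReal)).toENNReal = ENNReal.ofReal (∑ i, (α i + M)) := by
    rw [ENNReal.ofReal_sum_of_nonneg fun i _ => hα0 i]
    refine Finset.sum_congr rfl fun i _ => ?_
    rw [hα i]
    exact ten_real _ _
  have e4 : ∑ i, (α i + M) = ∑ i, α i + N * M := by
    rw [Finset.sum_add_distrib, Finset.sum_const, Finset.card_univ, Fintype.card_fin,
      nsmul_eq_mul]
  have e5 : 0 ≤ ∑ i, (α i + M) := Finset.sum_nonneg fun i _ => hα0 i
  rw [e4] at e3 e5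
  exact ⟨by linarith, e3 ▸ ENNReal.ofReal_le_ofReal (by linarith)⟩

/-- the composition with a translation and the truncation -/
theorem lsc_ten {X : Type} [TopologicalSpace X] {V : X → EReal} (h : LowerSemicontinuous V)
    (M : ℝ) : LowerSemicontinuous fun t => (V t + (M : EReal)).toENNReal := by
  have hc : Continuous fun x : EReal => (x + (M : EReal)).toENNReal := by
    refine EReal.continuous_toENNReal.comp ?_
    rw [continuous_iff_continuousAt]
    intro x
    exact ContinuousAt.comp (f := fun x : EReal => (x, (M : EReal)))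
      (EReal.continuousAt_add (p := (x, (M : EReal))) (Or.inr (EReal.coe_ne_bot M))
        (Or.inr (EReal.coe_ne_top M))) (by fun_prop)
  have hm : Monotone fun x : EReal => (x + (M : EReal)).toENNReal := fun x y hxy =>
    EReal.toENNReal_le_toENNReal (add_le_add_left hxy _)
  exact hc.comp_lowerSemicontinuous h hm

theorem conv_ten {u v w : EReal} (hu : u ≠ ⊥) (hv : v ≠ ⊥) (hw : w ≠ ⊥) (t : ℝ) (h0 : 0 < t)
    (h1 : t < 1) (h : w ≤ ((1 - t : ℝ) : EReal) * u + (t : EReal) * v) (M : ℝ) :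
    (w + (M : EReal)).toENNReal ≤ ENNReal.ofReal (1 - t) * (u + (M : EReal)).toENNReal +
        ENNReal.ofReal t * (v + (M : EReal)).toENNReal := by
  have p1 : ENNReal.ofReal (1 - t) ≠ 0 := (ENNReal.ofReal_pos.2 (by linarith)).ne'
  have p2 : ENNReal.ofReal t ≠ 0 := (ENNReal.ofReal_pos.2 h0).ne'
  by_cases hx : u = ⊤
  · rw [hx, EReal.top_add_coe, EReal.toENNReal_top, ENNReal.mul_top p1, top_add]
    exact le_top
  by_cases hy : v = ⊤
  · rw [hy, EReal.top_add_coe, EReal.toENNReal_top, ENNReal.mul_top p2, add_top]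
    exact le_top
  obtain ⟨a, ha⟩ : ∃ a : ℝ, u = (a : EReal) := ⟨_, (EReal.coe_toReal hx hu).symm⟩
  obtain ⟨b, hb'⟩ : ∃ b : ℝ, v = (b : EReal) := ⟨_, (EReal.coe_toReal hy hv).symm⟩
  rw [ha, hb', ← EReal.coe_mul, ← EReal.coe_mul, ← EReal.coe_add] at h
  have hz : w ≠ ⊤ := fun hz => by
    rw [hz] at h
    exact absurd h (not_le.2 (EReal.coe_lt_top _))
  obtain ⟨c, hcc⟩ : ∃ c : ℝ, w = (c : EReal) := ⟨_, (EReal.coe_toReal hz hw).symm⟩
  rw [hcc, EReal.coe_le_coe_iff] at h
  rw [ha, hb', hcc, ten_real, ten_real, ten_real, ← ENNReal.ofReal_mul (by linarith),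
    ← ENNReal.ofReal_mul h0.le]
  refine le_trans (ENNReal.ofReal_le_ofReal ?_) ENNReal.ofReal_add_le
  linarith

theorem neg_abs_le_ereal {z : EReal} (hz : z ≠ ⊥) : ((-|z.toReal| : ℝ) : EReal) ≤ z := by
  by_cases ht : z = ⊤
  · rw [ht]
    exact le_top
  · have h := EReal.coe_toReal ht hz
    conv_rhs => rw [← h]
    rw [EReal.coe_le_coe_iff]
    exact neg_abs_le _

theorem bdd_below {k : ℕ} {V : EuclideanSpace ℝ (Fin k) → EReal} (hb : ∀ t, V t ≠ ⊥)
    (hl : LowerSemicontinuous V) {R : ℝ}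
    (hR : 0 ≤ R) : ∃ C : ℝ, ∀ t, ‖t‖ ≤ R → ((-C : ℝ) : EReal) ≤ V t := by
  obtain ⟨s, hs, hmin⟩ := LowerSemicontinuousOn.exists_isMinOn
    (s := Metric.closedBall (0 : EuclideanSpace ℝ (Fin k)) R)
    ⟨0, by simpa using hR⟩ (isCompact_closedBall 0 R) (hl.lowerSemicontinuousOn _)
  refine ⟨|(V s).toReal|, fun t ht => (neg_abs_le_ereal (hb s)).trans ?_⟩
  exact hmin (by simpa using ht)

end Ver

open Ver in
theorem t_VER : Pool.Agent.N483.KM.S_VER := by
  intro r B n k L V e hV hb hne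
  obtain ⟨R, hR⟩ := hb.exists_norm_le
  obtain ⟨x1, hx1⟩ := hne
  have hR0 : 0 ≤ R := (norm_nonneg x1).trans (hR x1 hx1)
  set Lc := LinearMap.toContinuousLinearMap L with hLc
  have hLn : ∀ x i, ‖L x i‖ ≤ ‖Lc‖ * ‖x‖ := fun x i =>
    (norm_le_pi_norm (L x) i).trans (Lc.le_opNorm x)
  have h1 : ∀ j i, ∃ C : ℝ, ∀ t, ‖t‖ ≤ ‖Lc‖ * R → ((-C : ℝ) : EReal) ≤ V j i t := fun j i =>
    bdd_below (hV j i).nbot (hV j i).lsc (mul_nonneg (norm_nonneg _) hR0)
  choose C hC using h1
  set M : ℝ := ∑ j, ∑ i, |C j i| with hM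
  have hCM : ∀ j i, C j i ≤ M := by
    intro j i
    have h2 : |C j i| ≤ ∑ i, |C j i| :=
      Finset.single_le_sum (f := fun i => |C j i|) (fun _ _ => abs_nonneg _) (Finset.mem_univ i)
    have h3 : ∑ i, |C j i| ≤ M :=
      Finset.single_le_sum (f := fun j => ∑ i, |C j i|)
        (fun _ _ => Finset.sum_nonneg fun _ _ => abs_nonneg _) (Finset.mem_univ j)
    exact (le_abs_self _).trans (h2.trans h3)
  have hKM : ∀ x, (∀ j, ∑ i, V j i (L x i) ≤ (e j : EReal)) → ∀ j i,
      ((-M : ℝ) : EReal) ≤ V j i (L x i) := by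
    intro x hx j i
    have h2 : ‖L x i‖ ≤ ‖Lc‖ * R :=
      (hLn x i).trans (mul_le_mul_of_nonneg_left (hR x hx) (norm_nonneg _))
    refine le_trans ?_ (hC j i _ h2)
    rw [EReal.coe_le_coe_iff]
    exact neg_le_neg (hCM j i)
  have hfn : ∀ j, 0 ≤ e j + B * M := fun j => (le_of_sum _ (hKM x1 hx1 j) (hx1 j)).1
  refine ⟨fun j i t => (V j i t + (M : EReal)).toENNReal, fun j => ENNReal.ofReal (e j + B * M),
    fun j i => ⟨lsc_ten (hV j i).lsc M, fun x y t h0 h1 =>
      conv_ten ((hV j i).nbot x) ((hV j i).nbot y) ((hV j i).nbot _) t h0 h1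
        ((hV j i).conv x y t h0 h1) M⟩, fun j => ENNReal.ofReal_ne_top,
    fun i g hg j x => by simp only [hg j x], ?_⟩
  ext x
  constructor
  · intro hx j
    exact (le_of_sum _ (hKM x hx j) (hx j)).2
  · intro hx j
    exact sum_le_of _ (fun i => (hV j i).nbot _) (hfn j) (hx j)

end Pool.Agent.N247.KM
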